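import Pool.Agent.TH609.PD7.Stm
import Pool.Agent.Dim7.AM
import Pool.Agent.Dim7.G0
import Pool.Agent.Dim7.G3
import Pool.Agent.Dim7.G4
import Pool.Agent.Dim7.G5
import Pool.Agent.Dim7.G6
import Pool.Agent.Dim7.G6c
import Pool.Agent.Dim7.V1
import Pool.Agent.Dim7.V2
import Pool.Agent.Dim7.V3
import Pool.Agent.Dim7.V4

/-!
# The archimedean part at perturbed zeta values (AR)

The proof is that of `A_main_of` in `Pool/Agent/Dim7/AM.lean`, with the changes of
`Pool/Agent/TH21/PD9/AR.lean`: the additional error of the perturbation and the dependence on `β`.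
-/

set_option autoImplicit false

open Polynomial Pool.Agent.H337R2 Pool.Agent.Dim7 Filter Topology

namespace Pool.Agent.TH609.PD7

noncomputable section

theorem AR.deg_lag (n : ℕ) (s : Finset ℕ) (i : ℕ) :
    (lag s (zq n) i).natDegree ≤ (s.erase i).card := by
  unfold lag Pool.Agent.LZ.lag
  refine (Polynomial.natDegree_prod_le _ _).trans ?_
  refine (Finset.sum_le_sum (g := fun _ => 1) fun k _ => ?_).trans ?_
  · simp
  · simp

open AM in
/-- **the archimedean part** at perturbed zeta values, with all parts as hypotheses -/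
theorem AR.arch_gen (G0z : St_G0_zq_inj) (G0X : St_G0_nd_X) (G0Y : St_G0_nd_Y)
    (G3 : St_G3_Lp) (G4 : St_G4_weight) (G5 : St_G5_sat) (G6 : St_G6_pair) (G6c : St_G6_cross) (V1 : St_V1_upper) (V1t : St_V1_tail)
    (V2 : St_V2_lower) (V3 : St_V3_upperY) (V4 : St_V4_eS) (V5 : St_V5_eN)
    (sv_add : St_sv_add) (sv_entry : St_sv_entry) (R3 : St_rho_le) (R4 : St_BL_le) (R5 : St_potX) : St_arch := by
  obtain ⟨K1, hK1, hsup⟩ := supN G3 G4 V1 V1t
  obtain ⟨K2, hK2, hlow⟩ := lowN G3 G4 V2
  obtain ⟨C2, hC2, hBL⟩ := R4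
  obtain ⟨C8, hC8, hrho⟩ := R3
  obtain ⟨C9, hC9, hX⟩ := R5
  obtain ⟨C3, hC3, hY⟩ := potY G3 V3
  obtain ⟨C5, hC5, hS⟩ := G5
  obtain ⟨C6, hC6, hG6⟩ := G6
  obtain ⟨K7, hK7, h1000⟩ := const_le (Real.log 1001)
  obtain ⟨K8, hK8, h2000⟩ := const_le (Real.log 2000)
  obtain ⟨K9, hK9, h4⟩ := const_le (Real.log 3)
  set T : ℝ := 120 + 640 + 5 * (K1 + K2 + K8) + 5 * (K7 + K1) + 10 * (C3 + C2) + C5 + 800 * C6 + 1280 with hT
  have hlim0 : Tendsto (fun n : ℕ => Real.log n / (n : ℝ)) atTop (𝓝 0) := by
    have := (Real.isLittleO_log_id_atTop.tendsto_div_nhds_zero).comp tendsto_natCast_atTop_atTop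
    simpa [Function.comp_def] using this
  have hpert : ∀ᶠ n : ℕ in atTop, (K9 + C9 + C8) * Real.log n ≤ 19 / 20 * n := by
    have h2 : Tendsto (fun n : ℕ => (K9 + C9 + C8) * (Real.log n / (n : ℝ))) atTop (𝓝 ((K9 + C9 + C8) * 0)) :=
      hlim0.const_mul _
    rw [mul_zero] at h2
    filter_upwards [h2.eventually (gt_mem_nhds (show (0 : ℝ) < 19 / 20 by norm_num)), eventually_ge_atTop 1]
      with n h3 h4
    have hn0 : (0 : ℝ) < n := by exact_mod_cast h4
    have h5 : (K9 + C9 + C8) * Real.log n = ((K9 + C9 + C8) * (Real.log n / (n : ℝ))) * n := by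
      field_simp
    rw [h5]
    gcongr
  have key : ∀ᶠ n : ℕ in atTop, ∀ (α β : ℕ → ℚ) (θ : ℝ),
      (∀ i ∈ ({3, 5, 7} : Finset ℕ), |(α i : ℝ) + θ * (β i : ℝ) - zr i| ≤ Real.exp (-(123 * n))) →
      DD n α β ≠ 0 →
      Real.log |((DD n α β : ℚ) : ℝ)| ≤ 600 * ((n : ℝ) ^ 2 * Real.log n) + 10138 / 10 * (n : ℝ) ^ 2 +
        T * (n * Real.log n) + 10 * n * Real.log (1 + ∑ r ∈ Finset.Icc 1 8, |(β r : ℝ)|) := by
    filter_upwards [hsup, hpert, eventually_ge_atTop 10] with n hsup hpert hn10 α β θ h hD
    set LS : ℝ := Real.log (1 + ∑ r ∈ Finset.Icc 1 8, |(β r : ℝ)|) with hLS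
    have hLS0 : 0 ≤ LS := Real.log_nonneg (by
      have : 0 ≤ ∑ r ∈ Finset.Icc 1 8, |(β r : ℝ)| := Finset.sum_nonneg fun _ _ => abs_nonneg _
      linarith)
    have hn : 6 ≤ n := by omega
    have hn' := three_le hn
    have hnp : (0 : ℝ) < n := by linarith
    have hl2 : 0 < Real.log 2 := Real.log_pos (by norm_num)
    have hl := log2_le hn
    have hln : 0 < Real.log n := by linarith
    have hlog2n : (1 / 2 : ℝ) ≤ Real.log n := by
      have := Real.log_two_gt_d9
      linarith
    set MM : ℝ := Real.exp (1319 / 20 * n + 60 * n * Real.log n + K1 * Real.log n) with hMM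
    have hMM0 : 0 < MM := Real.exp_pos _
    set L : ℕ → ℝ := fun j => Lp n (Finset.range (20 * n - 20)) (20 * (8 * n + 1 + j)) +
      Lp n (Finset.range (10 * n - 10)) (20 * (8 * n + 1 + j)) with hL
    set b : ℕ → ℝ := fun j => if j < 5 * n - 1 then wv n (8 * n + 1 + j) * Real.exp (L j) + 1001 * MM
      else if j < 10 * n - 10 then 1001 * MM
      else Real.exp (702 / 5 * n + 60 * n * Real.log n + C3 * Real.log n + C2 * Real.log n + LS) with hb
    have hbpos : ∀ j, 0 < b j := by
      intro j
      rw [hb]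
      dsimp only
      have := wv_pos n (v := 8 * n + 1 + j) (by omega)
      split_ifs <;> positivity
    -- the matrix
    have e14 : 2 * (10 * n - 10) = 20 * n - 20 := by omega
    have hinj : Set.InjOn (zq n) (Finset.range (2 * (10 * n - 10))) := by
      rw [e14]
      exact G0z hn
    have h5 := Pool.Agent.LZ.A5_lagrange (AL n α) (BL n β) θ (10 * n - 10) (zq n) hinj
    rw [e14] at h5
    change _ = ((DD n α β : ℚ) : ℝ) ^ 2 * (VD _ _ * VD _ _ * VD _ _) at h5
    set M : Matrix (Fin (20 * n - 20)) (Fin (20 * n - 20)) ℝ := (Matrix.of fun i j : Fin (20 * n - 20) =>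
      if j.1 < 10 * n - 10 then
        ((AL n α (lag (Finset.range (20 * n - 20)) (zq n) i.1 * lag (Finset.range (10 * n - 10)) (zq n) j.1) : ℚ) : ℝ) +
          θ * ((BL n β (lag (Finset.range (20 * n - 20)) (zq n) i.1 * lag (Finset.range (10 * n - 10)) (zq n) j.1) : ℚ) : ℝ)
      else ((BL n β (lag (Finset.range (20 * n - 20)) (zq n) i.1 *
        lag (Finset.Ico (10 * n - 10) (20 * n - 20)) (zq n) j.1) : ℚ) : ℝ)) with hM
    have hentry : ∀ i j : Fin (20 * n - 20), |M i j| ≤ b j := by
      intro i j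
      rw [hM, hb]
      simp only [Matrix.of_apply]
      by_cases hj7 : j.1 < 10 * n - 10
      · rw [if_pos hj7]
        have h1 := sv_entry hn10 MM hMM0.le hsup i.1 j.1 i.2 hj7
        have hi' : i.1 ∈ Finset.range (20 * n - 20) := Finset.mem_range.mpr i.2
        have hj' : j.1 ∈ Finset.range (10 * n - 10) := Finset.mem_range.mpr hj7
        have hdeg : (lag (Finset.range (20 * n - 20)) (zq n) i.1 *
            lag (Finset.range (10 * n - 10)) (zq n) j.1).natDegree ≤ 30 * n := by
          refine (Polynomial.natDegree_mul_le).trans ?_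
          have h1 := AR.deg_lag n (Finset.range (20 * n - 20)) i.1
          have h2 := AR.deg_lag n (Finset.range (10 * n - 10)) j.1
          rw [Finset.card_erase_of_mem hi', Finset.card_range] at h1
          rw [Finset.card_erase_of_mem hj', Finset.card_range] at h2
          omega
        have h2 := sv_add hn10 α β θ _ hdeg
        rw [h2]
        have h3 : |∑ r ∈ ({3, 5, 7} : Finset ℕ), ((rho n (PM n * EM n (lag (Finset.range (20 * n - 20)) (zq n) i.1 *
            lag (Finset.range (10 * n - 10)) (zq n) j.1)) r : ℚ) : ℝ) *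
            ((α r : ℝ) + θ * (β r : ℝ) - zr r)| ≤ MM := by
          have hrho := hrho n hn (Finset.range (10 * n - 10)) (Finset.range_subset_range.mpr (by omega)) _
            (fun u hu => hX n hn u hu) i.1 j.1
          refine (Finset.abs_sum_le_sum_abs _ _).trans ?_
          have h5 : ∀ r ∈ ({3, 5, 7} : Finset ℕ), |((rho n (PM n * EM n (lag (Finset.range (20 * n - 20)) (zq n) i.1 *
            lag (Finset.range (10 * n - 10)) (zq n) j.1)) r : ℚ) : ℝ) *
            ((α r : ℝ) + θ * (β r : ℝ) - zr r)| ≤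
              Real.exp (188 * n + 60 * n * Real.log n + C9 * Real.log n + C8 * Real.log n) *
                Real.exp (-(123 * n)) := by
            intro r hr
            rw [abs_mul]
            exact mul_le_mul (hrho r ((by decide : ({3, 5, 7} : Finset ℕ) ⊆ Finset.Icc 1 8) hr)) (h r hr)
              (abs_nonneg _) (Real.exp_pos _).le
          refine (Finset.sum_le_sum h5).trans ?_
          rw [Finset.sum_const]
          have hcard : ({3, 5, 7} : Finset ℕ).card = 3 := by decide
          rw [hcard, nsmul_eq_mul, ← Real.exp_add]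
          have e4 : ((3 : ℕ) : ℝ) = Real.exp (Real.log 3) := by
            rw [Real.exp_log (by norm_num)]
            norm_num
          rw [e4, ← Real.exp_add, hMM]
          apply Real.exp_le_exp.2
          have h44 := h4 n hn
          have hK1l : 0 ≤ K1 * Real.log n := by positivity
          linarith
        have h6 := abs_add_le (sv n (lag (Finset.range (20 * n - 20)) (zq n) i.1 *
            lag (Finset.range (10 * n - 10)) (zq n) j.1)) (∑ r ∈ ({3, 5, 7} : Finset ℕ),
            ((rho n (PM n * EM n (lag (Finset.range (20 * n - 20)) (zq n) i.1 *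
            lag (Finset.range (10 * n - 10)) (zq n) j.1)) r : ℚ) : ℝ) *
            ((α r : ℝ) + θ * (β r : ℝ) - zr r))
        refine h6.trans ?_
        by_cases hj2 : j.1 < 5 * n - 1
        · rw [if_pos hj2]
          rw [if_pos hj2] at h1
          rw [hL]
          dsimp only
          linarith
        · rw [if_neg hj2, if_pos hj7]
          rw [if_neg hj2, zero_add] at h1
          linarith
      · rw [if_neg hj7, if_neg (by omega), if_neg hj7]
        exact hBL n hn β (Finset.Ico (10 * n - 10) (20 * n - 20))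
          (fun i hi => Finset.mem_range.mpr (Finset.mem_Ico.mp hi).2) _ (fun u hu => hY n hn u hu) i.1 j.1
    have hdet := Pool.Agent.LZ.A6_det_le (20 * n - 20) M b (fun j => (hbpos j).le) hentry
    -- logarithms
    have hDr : ((DD n α β : ℚ) : ℝ) ≠ 0 := by exact_mod_cast hD
    have v1 := VD_pos G0z hn (s := Finset.range (20 * n - 20)) (Finset.Subset.refl _)
    have v2 := VD_pos G0z hn (s := Finset.range (10 * n - 10))
      (Finset.range_subset_range.mpr (by omega))
    have v3 := VD_pos G0z hn (s := Finset.Ico (10 * n - 10) (20 * n - 20))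
      (fun i hi => Finset.mem_range.mpr (Finset.mem_Ico.mp hi).2)
    have hM0 : M.det ≠ 0 := by
      intro h0
      rw [h0] at h5
      have : (0 : ℝ) < ((DD n α β : ℚ) : ℝ) ^ 2 *
        (VD (Finset.range (20 * n - 20)) (zq n) * VD (Finset.range (10 * n - 10)) (zq n) *
          VD (Finset.Ico (10 * n - 10) (20 * n - 20)) (zq n)) := by positivity
      rw [← h5] at this
      norm_num at this
    have hlog1 : 2 * Real.log |M.det| = 2 * Real.log |((DD n α β : ℚ) : ℝ)| +
        (Real.log (VD (Finset.range (20 * n - 20)) (zq n)) + Real.log (VD (Finset.range (10 * n - 10)) (zq n)) +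
          Real.log (VD (Finset.Ico (10 * n - 10) (20 * n - 20)) (zq n))) := by
      have := congrArg Real.log h5
      rw [Real.log_pow, Real.log_mul (pow_ne_zero 2 hDr) (by positivity), Real.log_pow,
        Real.log_mul (by positivity) v3.ne', Real.log_mul v1.ne' v2.ne'] at this
      rw [Real.log_abs, Real.log_abs]
      push_cast at this
      exact this
    have hlog2 : Real.log |M.det| ≤ Real.log ((20 * n - 20).factorial : ℝ) +
        ∑ j ∈ Finset.range (20 * n - 20), Real.log (b j) := by
      rw [← Real.log_prod (fun i _ => (hbpos i).ne'),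
        ← Real.log_mul (by positivity) (Finset.prod_pos fun i _ => hbpos i).ne']
      exact Real.log_le_log (abs_pos.mpr hM0) hdet
    have hcross := G6c hn
    have hfac := logfac hn
    have h1000n := h1000 n hn
    have h2000n := h2000 n hn
    -- the three ranges
    have hb1 : ∀ j ∈ Finset.range (5 * n - 1), Real.log (b j) ≤ Real.log (wv n (8 * n + 1 + j)) + L j +
        (3 / 20 * (n : ℝ) + (K1 + K2 + K8) * Real.log n) := by
      intro j hj
      rw [Finset.mem_range] at hj
      have hlo := hlow n hn (8 * n + 1 + j) (by omega) (by omega)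
      rw [hb]
      dsimp only
      rw [if_pos hj]
      have hLe : Lp n (Finset.range (20 * n - 20)) (20 * ((8 * n + 1 + j : ℕ) : ℤ)) +
          Lp n (Finset.range (10 * n - 10)) (20 * ((8 * n + 1 + j : ℕ) : ℤ)) = L j := by
        rw [hL]
        push_cast
        rfl
      rw [hLe] at hlo
      have hW := wv_pos n (v := 8 * n + 1 + j) (by omega)
      have e1 : wv n (8 * n + 1 + j) * Real.exp (L j) = Real.exp (Real.log (wv n (8 * n + 1 + j)) + L j) := by
        rw [Real.exp_add (Real.log (wv n (8 * n + 1 + j))) (L j), Real.exp_log hW]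
      set A : ℝ := Real.log (wv n (8 * n + 1 + j)) + L j with hA
      set R : ℝ := 3 / 20 * (n : ℝ) + (K1 + K2) * Real.log n with hR
      have hR0 : 0 ≤ R := by rw [hR]; positivity
      have e2 : MM ≤ Real.exp (A + R) := by
        rw [hMM]
        apply Real.exp_le_exp.mpr
        rw [hR]
        linarith
      have e3 : Real.exp A ≤ Real.exp (A + R) := Real.exp_le_exp.mpr (by linarith)
      have e4 : wv n (8 * n + 1 + j) * Real.exp (L j) + 1001 * MM ≤ 2000 * Real.exp (A + R) := by
        rw [e1]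
        have := Real.exp_pos (A + R)
        linarith
      calc Real.log (wv n (8 * n + 1 + j) * Real.exp (L j) + 1001 * MM) ≤ Real.log (2000 * Real.exp (A + R)) :=
            Real.log_le_log (by positivity) e4
        _ = Real.log 2000 + (A + R) := by
            rw [Real.log_mul (by norm_num) (Real.exp_pos _).ne', Real.log_exp]
        _ ≤ _ := by
            rw [hR]
            linarith
    have hb2 : ∀ j ∈ Finset.Ico (5 * n - 1) (10 * n - 10), Real.log (b j) ≤
        1319 / 20 * n + 60 * n * Real.log n + (K7 + K1) * Real.log n := by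
      intro j hj
      rw [Finset.mem_Ico] at hj
      rw [hb]
      dsimp only
      rw [if_neg (by omega), if_pos hj.2, Real.log_mul (by norm_num) hMM0.ne', hMM, Real.log_exp]
      linarith
    have hb3 : ∀ j ∈ Finset.Ico (10 * n - 10) (20 * n - 20), Real.log (b j) ≤
        702 / 5 * n + 60 * n * Real.log n + (C3 + C2) * Real.log n + LS := by
      intro j hj
      rw [Finset.mem_Ico] at hj
      rw [hb]
      dsimp only
      rw [if_neg (by omega), if_neg (by omega), Real.log_exp]
      linarith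
    have hs1 := Finset.sum_le_sum hb1
    have hs2 := Finset.sum_le_sum hb2
    have hs3 := Finset.sum_le_sum hb3
    rw [Finset.sum_add_distrib, Finset.sum_const, Finset.card_range, nsmul_eq_mul] at hs1
    rw [Finset.sum_const, Nat.card_Ico, nsmul_eq_mul] at hs2 hs3
    have c1 : ((5 * n - 1 : ℕ) : ℝ) ≤ 5 * n := by
      have : ((5 * n - 1 : ℕ) : ℝ) ≤ ((5 * n : ℕ) : ℝ) := by exact_mod_cast (by omega : 5 * n - 1 ≤ 5 * n)
      push_cast at this
      exact this
    have c2 : ((10 * n - 10 - (5 * n - 1) : ℕ) : ℝ) ≤ 5 * n := by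
      have : ((10 * n - 10 - (5 * n - 1) : ℕ) : ℝ) ≤ ((5 * n : ℕ) : ℝ) := by
        exact_mod_cast (by omega : 10 * n - 10 - (5 * n - 1) ≤ 5 * n)
      push_cast at this
      exact this
    have c3 : ((20 * n - 20 - (10 * n - 10) : ℕ) : ℝ) ≤ 10 * n := by
      have : ((20 * n - 20 - (10 * n - 10) : ℕ) : ℝ) ≤ ((10 * n : ℕ) : ℝ) := by
        exact_mod_cast (by omega : 20 * n - 20 - (10 * n - 10) ≤ 10 * n)
      push_cast at this
      exact this
    have m1 := mul_le_mul_of_nonneg_right c1
      (show 0 ≤ 3 / 20 * (n : ℝ) + (K1 + K2 + K8) * Real.log n by positivity)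
    have m2 := mul_le_mul_of_nonneg_right c2
      (show 0 ≤ 1319 / 20 * (n : ℝ) + 60 * n * Real.log n + (K7 + K1) * Real.log n by positivity)
    have m3 := mul_le_mul_of_nonneg_right c3
      (show 0 ≤ 702 / 5 * (n : ℝ) + 60 * n * Real.log n + (C3 + C2) * Real.log n + LS by positivity)
    have hsplit : ∑ j ∈ Finset.range (20 * n - 20), Real.log (b j) =
        ∑ j ∈ Finset.range (5 * n - 1), Real.log (b j) + ∑ j ∈ Finset.Ico (5 * n - 1) (10 * n - 10), Real.log (b j) +
          ∑ j ∈ Finset.Ico (10 * n - 10) (20 * n - 20), Real.log (b j) := by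
      rw [Finset.sum_range_add_sum_Ico _ (by omega), Finset.sum_range_add_sum_Ico _ (by omega)]
    -- energies
    have hSn := hS n hn
    have hE1 := energy hC6 hn (hG6 n hn) 5 10 5 20 (by norm_num) (by norm_num) (by norm_num) (by norm_num)
    have hE2 := energy hC6 hn (hG6 n hn) 10 20 10 20 (by norm_num) (by norm_num) (by norm_num) (by norm_num)
    have hE1' := energy1 G0X G0Y hn
    rw [energy2 hn] at hE2
    have hcr1 : ∑ i ∈ Finset.range (5 * n - 1), (Lp n (Finset.range (20 * n - 20)) (nd n i) +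
        Lp n (Finset.range (10 * n - 10)) (nd n i) - Lp n (Finset.range (5 * n - 1)) (nd n i)) =
        ∑ i ∈ Finset.range (5 * n - 1), (Real.log (wv n (8 * n + 1 + i)) + L i) -
        ∑ i ∈ Finset.range (5 * n - 1), (Real.log (wv n (8 * n + 1 + i)) +
          Lp n (Finset.range (5 * n - 1)) (20 * (8 * n + 1 + i))) := by
      rw [← Finset.sum_sub_distrib]
      apply Finset.sum_congr rfl
      intro i hi
      rw [nd_sat (Finset.mem_range.mp hi), hL]
      dsimp only
      ring
    rw [hcr1] at hcross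
    have heN : eN = ∑ g ∈ Finset.Ico 5 10, ∑ h ∈ Finset.Ico 5 20, en g h +
        ∑ g ∈ Finset.Ico 10 20, ∑ h ∈ Finset.Ico 10 20, en g h := by
      unfold eN
      rw [← Finset.sum_add_distrib]
      congr 1
      apply Finset.sum_congr rfl
      intro g _
      rw [Finset.sum_Ico_consecutive _ (by norm_num) (by norm_num)]
    have hV4 : eS * (n : ℝ) ^ 2 ≤ -(1963 / 10) * (n : ℝ) ^ 2 :=
      mul_le_mul_of_nonneg_right V4 (by positivity)
    have hV5 : 5245 / 10 * (n : ℝ) ^ 2 ≤ eN * (n : ℝ) ^ 2 :=
      mul_le_mul_of_nonneg_right V5 (by positivity)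
    rw [heN, add_mul] at hV5
    rw [hsplit] at hlog2
    norm_num at hE1 hE2
    have h80 : 80 * (n : ℝ) * Real.log (80 * n) ≤ 640 * (n * Real.log n) := by
      have := log_pow_mul (x := 80 * (n : ℝ)) (y := n) 7 (by linarith) hnp hl (by linarith)
      push_cast at this
      have h6 : Real.log (80 * (n : ℝ)) ≤ 8 * Real.log n := by linarith
      calc 80 * (n : ℝ) * Real.log (80 * n) ≤ 80 * n * (8 * Real.log n) := by gcongr
        _ = _ := by ring
    have t1 : 5 * (n : ℝ) * (3 / 20 * (n : ℝ) + (K1 + K2 + K8) * Real.log n) =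
      3 / 4 * (n : ℝ) ^ 2 + 5 * (K1 + K2 + K8) * (n * Real.log n) := by ring
    have t2 : 5 * (n : ℝ) * (1319 / 20 * n + 60 * n * Real.log n + (K7 + K1) * Real.log n) =
      1319 / 4 * (n : ℝ) ^ 2 + 300 * ((n : ℝ) ^ 2 * Real.log n) + 5 * (K7 + K1) * (n * Real.log n) := by ring
    have t3 : 10 * (n : ℝ) * (702 / 5 * n + 60 * n * Real.log n + (C3 + C2) * Real.log n + LS) =
      1404 * (n : ℝ) ^ 2 + 600 * ((n : ℝ) ^ 2 * Real.log n) + 10 * (C3 + C2) * (n * Real.log n) +
        10 * n * LS := by ring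
    have t4 : 20 * (n : ℝ) * (6 * Real.log n) = 120 * (n * Real.log n) := by ring
    have t5 : T * (n * Real.log n) = 120 * (n * Real.log n) + 640 * (n * Real.log n) +
      5 * (K1 + K2 + K8) * (n * Real.log n) +
      5 * (K7 + K1) * (n * Real.log n) + 10 * (C3 + C2) * (n * Real.log n) + C5 * n * Real.log n +
      800 * (C6 * n * Real.log n) + 1280 * (n * Real.log n) := by rw [hT]; ring
    have t6 : 50 * (n : ℝ) ^ 2 * Real.log n = 50 * ((n : ℝ) ^ 2 * Real.log n) := by ring
    rw [t1] at m1
    rw [t2] at m2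
    rw [t3] at m3
    rw [t4] at hfac
    rw [t6] at hSn
    rw [t5]
    have hn2 : 0 ≤ (n : ℝ) ^ 2 := by positivity
    linarith
  -- conclude
  have hlim : ∀ᶠ n : ℕ in atTop, T * (n * Real.log n) ≤ 1 / 10 * (n : ℝ) ^ 2 := by
    have h2 : Tendsto (fun n : ℕ => T * (Real.log n / (n : ℝ))) atTop (𝓝 (T * 0)) := hlim0.const_mul _
    rw [mul_zero] at h2
    filter_upwards [h2.eventually (gt_mem_nhds (show (0 : ℝ) < 1 / 10 by norm_num)), eventually_ge_atTop 1]
      with n h3 h4
    have hn0 : (0 : ℝ) < n := by exact_mod_cast h4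
    have h5 : T * (n * Real.log n) = (T * (Real.log n / (n : ℝ))) * (n : ℝ) ^ 2 := by
      field_simp
    rw [h5]
    gcongr
  filter_upwards [hlim, key] with n h1 h2 α β θ h hD
  have := h2 α β θ h hD
  have hn2 : 0 ≤ (n : ℝ) ^ 2 := by positivity
  linarith


/-- **the archimedean part** at perturbed zeta values, uniform in the numbers -/
theorem arch_of (h1 : St_sv_add) (h2 : St_sv_entry) (h3 : St_rho_le) (h4 : St_BL_le)
    (h5 : St_potX) : St_arch :=
  AR.arch_gen G0_zq_inj G0_nd_X G0_nd_Y G3_Lp G4_weight G5_sat (G6_pair_of G3_Lp) G6_cross V1_upper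
    V1_tail V2_lower V3_upperY V4_eS V5_eN h1 h2 h3 h4 h5

end

end Pool.Agent.TH609.PD7
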