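import Pool.Agent.TH609.PD7.Stm
import Pool.Agent.Dim7.V2
import Pool.Agent.Dim7.G3
import Pool.Agent.Dim7.AM

/-!
# The potential of the zeta part at the poles
-/

open Polynomial Pool.Agent.H337R2 Pool.Agent.Dim7 Filter Topology

namespace Pool.Agent.TH609.PD7

noncomputable section

set_option autoImplicit false

namespace FX

/-- the integer bound -/
def xA : ℤ := 38326546279901880000000000

/-- the certificate -/
lemma c1 : V2.chkB 1 (ngl V2.vl) xA (-100)
    [-80, -78, -67, -58, -50, -43, -35, -18, -6, 6, 18, 35, 43, 50, 58, 67, 78, 80, 100] = true := by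
  decide +kernel

lemma EF_bound (w : ℝ) (h0 : -100 ≤ w) (h1 : w ≤ 100) :
    EF 760040182440 1 (ngl V2.vl) w ≤ 50427 / 1000 := by
  have h := V2.chkB_spec (Dc := 760040182440) (M := 1) (l := ngl V2.vl) (A := xA) (by norm_num) (by norm_num)
    (by norm_num) (50427 / 1000) (by unfold xA; norm_num)
    [-78, -67, -58, -50, -43, -35, -18, -6, 6, 18, 35, 43, 50, 58, 67, 78, 80, 100] (-100) (-80) c1 w
    (by push_cast; linarith) (by simp only [V2.lastB]; push_cast; linarith)
  simpa using h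

end FX

/-- the potential of the zeta part at the poles -/
theorem FN_in : St_FX := by
  intro w h0 h1
  have hE := FX.EF_bound w h0 h1
  rw [EF_neg] at hE
  have l2 := V2.log_up 2 (by norm_num) (by norm_num) 693147180560 (by decide +kernel)
  have l5 := V2.log_up 5 (by norm_num) (by norm_num) 1609437912428 (by decide +kernel)
  have l3 := V2.log_low 3 (by norm_num) (by norm_num) 1098612288761 (by decide +kernel)
  push_cast at l2 l5 l3
  rw [V2.FN_eq]
  linarith

/-- the total potential of the zeta part at the poles -/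
theorem potX : St_potX := by
  obtain ⟨C3, hC3, h3⟩ := G3_Lp
  refine ⟨16 * C3, by positivity, fun n hn u hu => ?_⟩
  have hn' := AM.three_le hn
  have hn0 : (0 : ℝ) < n := by linarith
  have hl2 : 0 < Real.log 2 := Real.log_pos (by norm_num)
  have hl := AM.log2_le hn
  have hu' : |(u : ℝ)| ≤ 5 * n := by exact_mod_cast hu
  have hu1 := abs_le.mp hu'
  have a2 := (abs_le.mp (h3 n hn 0 20 (by norm_num) le_rfl (20 * u))).2
  have a3 := (abs_le.mp (h3 n hn 0 10 (by norm_num) (by norm_num) (20 * u))).2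
  rw [← AM.range_eq] at a2
  rw [← AM.range_eq] at a3
  push_cast at a2 a3
  have habs : |20 * (u : ℝ)| = 20 * |(u : ℝ)| := by rw [abs_mul]; norm_num
  rw [habs] at a2 a3
  have hab0 := abs_nonneg (u : ℝ)
  have hlog : Real.log ((n : ℝ) + 20 * |(u : ℝ)|) ≤ 8 * Real.log n := by
    have := AM.log_pow_mul (x := (n : ℝ) + 20 * |(u : ℝ)|) (y := n) 7 (by linarith) hn0 hl
      (by linarith)
    push_cast at this
    linarith
  have hs : ∑ g ∈ Finset.Ico 0 20, Ub g (20 * (u : ℝ) / n) =
      ∑ g ∈ Finset.range 10, Ub g (20 * (u : ℝ) / n) + ∑ g ∈ Finset.Ico 10 20, Ub g (20 * (u : ℝ) / n) := by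
    rw [Finset.range_eq_Ico, Finset.sum_Ico_consecutive _ (by norm_num) (by norm_num)]
  rw [hs] at a2
  rw [← Finset.range_eq_Ico] at a3
  have hC3l : C3 * Real.log ((n : ℝ) + 20 * |(u : ℝ)|) ≤ 8 * (C3 * Real.log n) := by
    calc C3 * Real.log ((n : ℝ) + 20 * |(u : ℝ)|) ≤ C3 * (8 * Real.log n) := by gcongr
      _ = _ := by ring
  have hw1 : -100 ≤ 20 * (u : ℝ) / n := by
    rw [le_div_iff₀ hn0]; linarith
  have hw2 : 20 * (u : ℝ) / n ≤ 100 := by
    rw [div_le_iff₀ hn0]; linarith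
  have hF := mul_le_mul_of_nonneg_left (FN_in _ hw1 hw2) hn0.le
  unfold FN at hF
  have e3 : 16 * C3 * Real.log n = 8 * (C3 * Real.log n) + 8 * (C3 * Real.log n) := by ring
  rw [e3]
  simp only [sub_zero] at a2 a3
  have e4 : (n : ℝ) * (phi (20 * (u : ℝ) / n) + 2 * ∑ g ∈ Finset.range 10, Ub g (20 * (u : ℝ) / n) +
      ∑ g ∈ Finset.Ico 10 20, Ub g (20 * (u : ℝ) / n)) = n * phi (20 * (u : ℝ) / n) +
      n * (∑ g ∈ Finset.range 10, Ub g (20 * (u : ℝ) / n) + ∑ g ∈ Finset.Ico 10 20, Ub g (20 * (u : ℝ) / n)) +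
      n * ∑ g ∈ Finset.range 10, Ub g (20 * (u : ℝ) / n) := by ring
  rw [e4] at hF
  linarith

end

end Pool.Agent.TH609.PD7
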