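import Pool.Agent.TH609.PD7.Stm
import Pool.Agent.TH957.ZM.Prime
import Pool.Agent.H336R2.HD.A5

/-!
# The distance of `(1, ζ(3), ζ(5), ζ(7))` to rational planes: conclusion
-/

open Polynomial Pool.Agent.H337R2 Pool.Agent.Dim7 Filter Topology

namespace Pool.Agent.TH609.PD7

noncomputable section

set_option autoImplicit false

/-- no plane with small coefficients prime to `n` is very close to the zeta values -/
theorem key_of (hPU : St_PU) (hNV : St_NV) (hAR : St_arch) (hPl : St_P_large) :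
    ∃ n0 : ℕ, ∀ n : ℕ, n0 ≤ n → n.Prime → ∀ (q : ℕ) (α β : ℕ → ℚ) (θ : ℝ),
    UInt q α → UInt q β → ¬ n ∣ q → (∀ i < 3, β i = 0) →
    padicNorm n (β 3) = 1 →
    20 * Real.log q + 10 * Real.log (1 + ∑ r ∈ Finset.Icc 1 8, |(β r : ℝ)|) ≤ 199 / 100 * n →
    ∃ i ∈ ({3, 5, 7} : Finset ℕ), Real.exp (-(123 * n)) < |(α i : ℝ) + θ * (β i : ℝ) - zr i| := by
  obtain ⟨p0, hH6⟩ := hNV
  obtain ⟨N, hN⟩ := eventually_atTop.1 ((hPU.and hAR).and (eventually_ge_atTop 1))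
  refine ⟨N + p0, fun n hn hnp q α β θ hα hβ hnq hβ3 hβ1 hlogq => ?_⟩
  by_contra hcon
  push Not at hcon
  have hq : 0 < q := hα.1
  have hq0 : (0 : ℝ) < q := by exact_mod_cast hq
  have hlq : 0 ≤ Real.log q := Real.log_nonneg (by exact_mod_cast hq)
  obtain ⟨⟨h1, h2⟩, h4⟩ := hN n (by omega)
  have hne := hH6 n (by omega) hnp α β q hα hβ hnq hβ3 hβ1
  have h1' := h1 q α β hα hβ hβ3 hne
  have h2' := h2 α β θ hcon hne
  set z : ℚ := (q : ℚ) ^ (20 * n - 20) * DD n α β with hz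
  have hqq : (q : ℚ) ≠ 0 := by exact_mod_cast hq.ne'
  have hz0 : z ≠ 0 := mul_ne_zero (pow_ne_zero _ hqq) hne
  have hS : ∀ p ∈ (Finset.range (40 * n + 1)).filter Nat.Prime, p.Prime := fun p hp =>
    (Finset.mem_filter.1 hp).2
  have hprod := Pool.Agent.H336R2.HD.A5_prod_formula z hz0
    ((Finset.range (40 * n + 1)).filter Nat.Prime) hS
    (fun p => ((padicNorm p z : ℚ) : ℝ)) (fun p _ => le_rfl) (fun p hp hpS => by
      apply hPl q α β hα hβ hβ3 n h4 p hp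
      by_contra hlt
      apply hpS
      rw [Finset.mem_filter, Finset.mem_range]
      exact ⟨by omega, hp⟩)
  have hpos : ∀ p ∈ (Finset.range (40 * n + 1)).filter Nat.Prime,
      ((padicNorm p z : ℚ) : ℝ) ≠ 0 := by
    intro p hp
    have : Fact p.Prime := ⟨hS p hp⟩
    have h5 : padicNorm p z ≠ 0 := padicNorm.nonzero hz0
    exact_mod_cast h5
  have hDpos : 0 < |((DD n α β : ℚ) : ℝ)| := abs_pos.2 (by exact_mod_cast hne)
  have habs : |(z : ℝ)| = (q : ℝ) ^ (20 * n - 20) * |((DD n α β : ℚ) : ℝ)| := by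
    rw [hz]
    push_cast
    rw [abs_mul, abs_of_pos (pow_pos hq0 _)]
  have hlog := Real.log_nonneg hprod
  rw [habs, Real.log_mul (mul_pos (pow_pos hq0 _) hDpos).ne' (Finset.prod_ne_zero_iff.2 hpos),
    Real.log_mul (pow_pos hq0 _).ne' hDpos.ne', Real.log_pow,
    Real.log_prod (fun p hp => hpos p hp)] at hlog
  have hmq : ((20 * n - 20 : ℕ) : ℝ) * Real.log q ≤ 20 * n * Real.log q := by
    apply mul_le_mul_of_nonneg_right _ hlq
    have : 20 * n - 20 ≤ 20 * n := Nat.sub_le _ _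
    exact_mod_cast this
  have hn1 : (1 : ℝ) ≤ n := by exact_mod_cast h4
  have hn2 : (1 : ℝ) ≤ (n : ℝ) ^ 2 := by nlinarith
  have h6 := mul_le_mul_of_nonneg_left hlogq (by linarith : (0 : ℝ) ≤ n)
  have e6 : (n : ℝ) * (20 * Real.log q + 10 * Real.log (1 + ∑ r ∈ Finset.Icc 1 8, |(β r : ℝ)|)) =
      20 * n * Real.log q + 10 * n * Real.log (1 + ∑ r ∈ Finset.Icc 1 8, |(β r : ℝ)|) := by ring
  have e7 : (n : ℝ) * (199 / 100 * n) = 199 / 100 * (n : ℝ) ^ 2 := by ring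
  rw [e6, e7] at h6
  linarith

/-- the set of indices -/
abbrev I3 : Finset ℕ := {3, 5, 7}

/-- the numbers `u i / q`, `i = 3, 5, 7` -/
def frac (q : ℕ) (u : ℕ → ℤ) (i : ℕ) : ℚ := if i ∈ I3 then (u i : ℚ) / q else 0

lemma frac_UInt {q : ℕ} (hq : 0 < q) (u : ℕ → ℤ) : UInt q (frac q u) := by
  refine ⟨hq, fun i => ?_⟩
  unfold frac
  split_ifs
  · refine ⟨u i, ?_⟩
    have : (q : ℚ) ≠ 0 := by exact_mod_cast hq.ne'
    field_simp
  · exact ⟨0, by simp⟩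

lemma frac_mem {q : ℕ} (u : ℕ → ℤ) {i : ℕ} (hi : i ∈ I3) : ((frac q u i : ℚ) : ℝ) = (u i : ℝ) / q := by
  unfold frac
  rw [if_pos hi]
  push_cast
  rfl

lemma frac_sum {q : ℕ} (hq : 0 < q) (u : ℕ → ℤ) (H : ℝ) (hu : ∀ i ∈ I3, |(u i : ℝ)| ≤ H) :
    ∑ r ∈ Finset.Icc 1 8, |((frac q u r : ℚ) : ℝ)| ≤ 3 * H / q := by
  have hq0 : (0 : ℝ) < q := by exact_mod_cast hq
  have h1 : ∑ r ∈ Finset.Icc 1 8, |((frac q u r : ℚ) : ℝ)| = ∑ r ∈ I3, |((frac q u r : ℚ) : ℝ)| := by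
    symm
    apply Finset.sum_subset (by decide)
    intro i _ hi
    unfold frac
    rw [if_neg hi]
    simp
  rw [h1]
  have h2 : ∀ r ∈ I3, |((frac q u r : ℚ) : ℝ)| ≤ H / q := by
    intro r hr
    rw [frac_mem u hr, abs_div, abs_of_pos hq0]
    exact div_le_div_of_nonneg_right (hu r hr) hq0.le
  refine (Finset.sum_le_sum h2).trans ?_
  rw [Finset.sum_const]
  have hcard : I3.card = 3 := by decide
  rw [hcard, nsmul_eq_mul]
  apply le_of_eq
  push_cast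
  ring

/-- the measure for large heights -/
theorem meas_large_of (hkey : ∃ n0 : ℕ, ∀ n : ℕ, n0 ≤ n → n.Prime → ∀ (q : ℕ) (α β : ℕ → ℚ) (θ : ℝ),
    UInt q α → UInt q β → ¬ n ∣ q → (∀ i < 3, β i = 0) →
    padicNorm n (β 3) = 1 →
    20 * Real.log q + 10 * Real.log (1 + ∑ r ∈ Finset.Icc 1 8, |(β r : ℝ)|) ≤ 199 / 100 * n →
    ∃ i ∈ ({3, 5, 7} : Finset ℕ), Real.exp (-(123 * n)) < |(α i : ℝ) + θ * (β i : ℝ) - zr i|) :
    ∃ H0 : ℝ, 1 ≤ H0 ∧ ∀ H : ℝ, H0 ≤ H → ∀ (q : ℕ) (a b : ℕ → ℤ) (θ : ℝ), 0 < q → (q : ℝ) ≤ H →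
    (∀ i ∈ I3, |(b i : ℝ)| ≤ H) → b 3 ≠ 0 →
    ∃ i ∈ I3, 1 / H ^ 1490 ≤ |zr i - ((a i : ℝ) + θ * (b i : ℝ)) / q| := by
  obtain ⟨n0, hkey⟩ := hkey
  have hpr := Pool.Agent.TH957.ZM.exists_prime_cls 1 le_rfl 1 isUnit_one (1199 / 1000) (20 / 101) (by norm_num) (by
    rw [Nat.totient_one]; norm_num)
  obtain ⟨X0, hX0⟩ := eventually_atTop.1 hpr
  refine ⟨Real.exp (X0 + n0 + 400), Real.one_le_exp (by positivity), fun H hH q a b θ hq hqH hbH hb => ?_⟩
  have hH0 : 0 < H := (Real.exp_pos _).trans_le hH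
  have hX00 : (0 : ℝ) ≤ X0 := by positivity
  have hn00 : (0 : ℝ) ≤ n0 := by positivity
  set L := Real.log H with hL
  have hlH : (X0 + n0 + 400 : ℝ) ≤ L := by
    rw [hL, ← Real.log_exp (X0 + n0 + 400 : ℝ)]
    exact Real.log_le_log (Real.exp_pos _) hH
  have hH1 : 1 ≤ H := by
    have : Real.exp 0 ≤ Real.exp (X0 + n0 + 400 : ℝ) := Real.exp_le_exp.2 (by positivity)
    rw [Real.exp_zero] at this
    linarith
  have hqr : (0 : ℝ) < q := by exact_mod_cast hq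
  have h34 : (3 : ℕ) ∈ I3 := by decide
  -- the prime
  set X : ℕ := ⌈101 / 10 * L⌉₊ with hX
  have hX1 : 101 / 10 * L ≤ X := Nat.le_ceil _
  have hX2 : (X : ℝ) < 101 / 10 * L + 1 := Nat.ceil_lt_add_one (by linarith)
  have hXX : X0 ≤ X := by
    have : (X0 : ℝ) ≤ X := by linarith
    exact_mod_cast this
  have hXn : n0 ≤ X := by
    have : (n0 : ℝ) ≤ X := by linarith
    exact_mod_cast this
  have hbabs : (1 : ℝ) ≤ |(b 3 : ℝ)| := by
    have : (1 : ℤ) ≤ |b 3| := Int.one_le_abs hb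
    exact_mod_cast this
  set Q : ℕ := q * (b 3).natAbs with hQ
  have hQ0 : 0 < Q := Nat.mul_pos hq (Int.natAbs_pos.2 hb)
  have hQr : (Q : ℝ) = q * |(b 3 : ℝ)| := by
    rw [hQ]
    push_cast
    rw [Nat.cast_natAbs, Int.cast_abs]
  have hQlog : Real.log Q ≤ 20 / 101 * X := by
    have h1 : Real.log Q ≤ Real.log (H * H) := by
      apply Real.log_le_log (by exact_mod_cast hQ0)
      rw [hQr]
      exact mul_le_mul hqH (hbH 3 h34) (abs_nonneg _) hH0.le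
    rw [Real.log_mul hH0.ne' hH0.ne'] at h1
    linarith
  obtain ⟨n, hnp, -, hn2, hn3, hn4⟩ := hX0 X hXX Q hQ0 hQlog
  have hnX : (X : ℝ) ≤ n := by exact_mod_cast hn2.le
  have hnq : ¬ n ∣ q := fun h => hn4 (h.trans (Dvd.intro _ rfl))
  have hnb : ¬ n ∣ (b 3).natAbs := fun h => hn4 (h.trans (Dvd.intro_left _ rfl))
  have hFact : Fact n.Prime := ⟨hnp⟩
  -- the sizes
  have hS := frac_sum hq b H hbH
  have hlogs : 20 * Real.log q + 10 * Real.log (1 + ∑ r ∈ Finset.Icc 1 8, |((frac q b r : ℚ) : ℝ)|) ≤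
      199 / 100 * n := by
    have h1 : Real.log (1 + ∑ r ∈ Finset.Icc 1 8, |((frac q b r : ℚ) : ℝ)|) ≤ Real.log (4 * H / q) := by
      apply Real.log_le_log
      · have : 0 ≤ ∑ r ∈ Finset.Icc 1 8, |((frac q b r : ℚ) : ℝ)| := Finset.sum_nonneg fun _ _ => abs_nonneg _
        linarith
      · have h2 : 1 ≤ H / q := (one_le_div hqr).2 hqH
        have h3 : 4 * H / q = H / q + 3 * H / q := by ring
        rw [h3]
        linarith
    rw [Real.log_div (by positivity) hqr.ne', Real.log_mul (by norm_num) hH0.ne'] at h1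
    have h2 : Real.log q ≤ L := Real.log_le_log hqr hqH
    have h3 : Real.log 4 ≤ 2 := by
      have h4 : Real.log 4 = 2 * Real.log 2 := by
        rw [show (4 : ℝ) = 2 ^ 2 by norm_num, Real.log_pow]
        norm_num
      have := Real.log_two_lt_d9
      rw [h4]
      linarith
    linarith
  -- the point
  have hβ0 : ∀ i < 3, frac q b i = 0 := by
    intro i hi
    unfold frac
    rw [if_neg]
    simp only [Finset.mem_insert, Finset.mem_singleton]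
    omega
  have hβ1 : padicNorm n (frac q b 3) = 1 := by
    unfold frac
    rw [if_pos h34, padicNorm.div]
    have h1 : padicNorm n ((b 3 : ℤ) : ℚ) = 1 := by
      rw [padicNorm.int_eq_one_iff]
      intro h
      exact hnb (Int.natCast_dvd.1 h)
    have h2 : padicNorm n ((q : ℕ) : ℚ) = 1 := by
      rw [padicNorm.nat_eq_one_iff]
      exact hnq
    rw [h1, h2]
    norm_num
  obtain ⟨i, hi, hlt⟩ := hkey n (by omega) hnp q (frac q a) (frac q b) θ (frac_UInt hq a) (frac_UInt hq b) hnq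
    hβ0 hβ1 hlogs
  refine ⟨i, hi, ?_⟩
  have e1 : |zr i - ((a i : ℝ) + θ * (b i : ℝ)) / q| =
      |((frac q a i : ℚ) : ℝ) + θ * ((frac q b i : ℚ) : ℝ) - zr i| := by
    rw [frac_mem a hi, frac_mem b hi, abs_sub_comm]
    congr 1
    ring
  rw [e1]
  refine le_trans ?_ hlt.le
  have e2 : 1 / H ^ 1490 = Real.exp (-(1490 * L)) := by
    rw [hL, Real.exp_neg, one_div]
    congr 1
    rw [← Real.exp_log (pow_pos hH0 1490), Real.log_pow]
    norm_num
  rw [e2]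
  apply Real.exp_le_exp.2
  linarith

/-- **the distance to rational planes** -/
theorem main_of (hlarge : ∃ H0 : ℝ, 1 ≤ H0 ∧ ∀ H : ℝ, H0 ≤ H → ∀ (q : ℕ) (a b : ℕ → ℤ) (θ : ℝ), 0 < q → (q : ℝ) ≤ H →
    (∀ i ∈ I3, |(b i : ℝ)| ≤ H) → b 3 ≠ 0 →
    ∃ i ∈ I3, 1 / H ^ 1490 ≤ |zr i - ((a i : ℝ) + θ * (b i : ℝ)) / q|)
    (h3 : ∃ c : ℝ, 0 < c ∧ ∀ (p : ℤ) (q : ℕ), 0 < q → c / (q : ℝ) ^ ((542 : ℝ) / 100) ≤ |zr 3 - (p : ℝ) / q|) :
    ∃ c : ℝ, 0 < c ∧ ∀ (q : ℕ) (a b : ℕ → ℤ) (θ H : ℝ), 0 < q → (q : ℝ) ≤ H →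
    (∀ i ∈ I3, |(b i : ℝ)| ≤ H) →
    ∃ i ∈ I3, c / H ^ 1490 ≤ |zr i - ((a i : ℝ) + θ * (b i : ℝ)) / q| := by
  obtain ⟨H0, hH0, hlarge⟩ := hlarge
  obtain ⟨c3, hc3, h3⟩ := h3
  refine ⟨min c3 (1 / H0 ^ 1490), lt_min hc3 (by positivity), fun q a b θ H hq hqH hbH => ?_⟩
  have hqr : (0 : ℝ) < q := by exact_mod_cast hq
  have hq1 : (1 : ℝ) ≤ q := by exact_mod_cast hq
  have hH1 : 1 ≤ H := hq1.trans hqH
  have hHpos : 0 < H := by linarith
  by_cases hb : b 3 = 0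
  · refine ⟨3, by decide, ?_⟩
    rw [hb]
    have h1 := h3 (a 3) q hq
    have e1 : ((a 3 : ℝ) + θ * ((0 : ℤ) : ℝ)) / q = (a 3 : ℝ) / q := by
      push_cast
      ring
    rw [e1]
    refine le_trans ?_ h1
    calc min c3 (1 / H0 ^ 1490) / H ^ 1490 ≤ c3 / H ^ 1490 :=
          div_le_div_of_nonneg_right (min_le_left _ _) (by positivity)
      _ ≤ c3 / (q : ℝ) ^ ((542 : ℝ) / 100) := by
          apply div_le_div_of_nonneg_left hc3.le (by positivity)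
          calc (q : ℝ) ^ ((542 : ℝ) / 100) ≤ H ^ ((542 : ℝ) / 100) :=
                Real.rpow_le_rpow hqr.le hqH (by norm_num)
            _ ≤ H ^ (1490 : ℝ) := Real.rpow_le_rpow_of_exponent_le hH1 (by norm_num)
            _ = H ^ 1490 := by
                rw [← Real.rpow_natCast]
                norm_num
  · rcases le_total H0 H with hc | hc
    · obtain ⟨i, hi, h⟩ := hlarge H hc q a b θ hq hqH hbH hb
      refine ⟨i, hi, le_trans ?_ h⟩
      apply div_le_div_of_nonneg_right _ (by positivity)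
      refine (min_le_right _ _).trans ?_
      rw [div_le_one (by positivity)]
      exact one_le_pow₀ hH0
    · obtain ⟨i, hi, h⟩ := hlarge H0 le_rfl q a b θ hq (hqH.trans hc) (fun i hi => (hbH i hi).trans hc) hb
      refine ⟨i, hi, le_trans ?_ h⟩
      calc min c3 (1 / H0 ^ 1490) / H ^ 1490 ≤ (1 / H0 ^ 1490) / H ^ 1490 :=
            div_le_div_of_nonneg_right (min_le_right _ _) (by positivity)
        _ ≤ (1 / H0 ^ 1490) / 1 := by
            apply div_le_div_of_nonneg_left (by positivity) (by norm_num)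
            exact one_le_pow₀ hH1
        _ = 1 / H0 ^ 1490 := by rw [div_one]

end

end Pool.Agent.TH609.PD7
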