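import Pool.Agent.Dim7.Iface

/-!
# The distance of `(1, ζ(3), ζ(5), ζ(7))` to rational planes: statements of the parts

Quantitative form of `Pool/Agent/Dim7/`; the pattern is `Pool/Agent/TH21/PD9/` (for `Pool/Agent/H574R2/D9/`).
-/

open Polynomial Pool.Agent.H337R2 Pool.Agent.Dim7 Filter Topology

namespace Pool.Agent.TH609.PD7

noncomputable section

/-- the p-adic part, with a threshold which does not depend on the numbers -/
def St_PU : Prop := ∀ᶠ n : ℕ in atTop, ∀ (q : ℕ) (α β : ℕ → ℚ), UInt q α → UInt q β → (∀ i < 3, β i = 0) →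
    DD n α β ≠ 0 →
    ∑ p ∈ (Finset.range (40 * n + 1)).filter Nat.Prime,
      Real.log ((padicNorm p ((q : ℚ) ^ (20 * n - 20) * DD n α β) : ℚ) : ℝ) ≤
    -(600 * (n : ℝ) ^ 2 * Real.log n) - 1016 * (n : ℝ) ^ 2

/-- non-vanishing at prime parameters, uniformly in the numbers -/
def St_NV : Prop := ∃ p0 : ℕ, ∀ p : ℕ, p0 ≤ p → p.Prime → ∀ (α β : ℕ → ℚ) (q : ℕ), UInt q α → UInt q β → ¬ p ∣ q →
    (∀ i < 3, β i = 0) → padicNorm p (β 3) = 1 → DD p α β ≠ 0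

/-- the linear form in the zeta values -/
def sv (n : ℕ) (Q : ℚ[X]) : ℝ := ∑ i ∈ Finset.Icc 1 8,
        (((∑ k ∈ sM n, pa (sM n) mM (PM n * EM n Q) k i : ℚ) : ℝ) * (if i = 1 then 0 else zr i) -
          ((∑ k ∈ sM n, pa (sM n) mM (PM n * EM n Q) k i * hs i (k - 3 * n) : ℚ) : ℝ))

def St_sv_hasSum : Prop := ∀ {n : ℕ}, 10 ≤ n → ∀ (Q : ℚ[X]), Q.natDegree ≤ 30 * n →
    HasSum (fun t : ℕ => wv n (8 * n + 1 + t) * ((Q.eval (((8 * n + 1 + t : ℕ) : ℚ) ^ 2) : ℚ) : ℝ)) (sv n Q)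

def St_sv_add : Prop := ∀ {n : ℕ}, 10 ≤ n → ∀ (α β : ℕ → ℚ) (θ : ℝ) (Q : ℚ[X]), Q.natDegree ≤ 30 * n →
    ((AL n α Q : ℚ) : ℝ) + θ * ((BL n β Q : ℚ) : ℝ) = sv n Q +
      ∑ r ∈ ({3, 5, 7} : Finset ℕ), ((rho n (PM n * EM n Q) r : ℚ) : ℝ) * ((α r : ℝ) + θ * (β r : ℝ) - zr r)

def St_sv_entry : Prop := ∀ {n : ℕ}, 10 ≤ n → ∀ (MM : ℝ), 0 ≤ MM →
    (∀ v : ℕ, 13 * n ≤ v →
      wv n v * Real.exp (Lp n (Finset.range (20 * n - 20)) (20 * v) + Lp n (Finset.range (10 * n - 10)) (20 * v)) ≤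
        MM / (v : ℝ) ^ 2) →
    ∀ (i j : ℕ), i < 20 * n - 20 → j < 10 * n - 10 →
    |sv n (lag (Finset.range (20 * n - 20)) (zq n) i * lag (Finset.range (10 * n - 10)) (zq n) j)| ≤
    (if j < 5 * n - 1 then wv n (8 * n + 1 + j) *
      Real.exp (Lp n (Finset.range (20 * n - 20)) (20 * (8 * n + 1 + j)) +
        Lp n (Finset.range (10 * n - 10)) (20 * (8 * n + 1 + j))) else 0) + 1000 * MM

/-- potential of the zeta part at the poles (numerically the maximum is 187.653 at 0) -/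
def St_FX : Prop := ∀ (w : ℝ), -100 ≤ w → w ≤ 100 → FN w ≤ 188

/-- bounds of the coefficients of the linear forms -/
def St_rho_le : Prop := ∃ C : ℝ, 0 < C ∧ ∀ n : ℕ, 6 ≤ n → ∀ s : Finset ℕ, s ⊆ Finset.range (20 * n - 20) → ∀ MX : ℝ,
    (∀ u : ℤ, |u| ≤ 5 * n → n * phi (20 * (u : ℝ) / n) + Lp n (Finset.range (20 * n - 20)) (20 * u) +
      Lp n s (20 * u) ≤ MX) → ∀ i j : ℕ, ∀ r ∈ Finset.Icc 1 8,
    |((rho n (PM n * EM n (lag (Finset.range (20 * n - 20)) (zq n) i * lag s (zq n) j)) r : ℚ) : ℝ)| ≤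
      Real.exp (MX + C * Real.log n)

/-- entries of the pole part, with the dependence on `β` -/
def St_BL_le : Prop := ∃ C : ℝ, 0 < C ∧ ∀ n : ℕ, 6 ≤ n → ∀ (β : ℕ → ℚ) (s : Finset ℕ),
    s ⊆ Finset.range (20 * n - 20) → ∀ MY : ℝ,
    (∀ u : ℤ, |u| ≤ 5 * n → n * phi (20 * (u : ℝ) / n) + Lp n (Finset.range (20 * n - 20)) (20 * u) +
      Lp n s (20 * u) ≤ MY) → ∀ i j : ℕ,
    |((BL n β (lag (Finset.range (20 * n - 20)) (zq n) i * lag s (zq n) j) : ℚ) : ℝ)| ≤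
      Real.exp (MY + C * Real.log n + Real.log (1 + ∑ r ∈ Finset.Icc 1 8, |(β r : ℝ)|))

/-- the total potential of the zeta part at the poles -/
def St_potX : Prop := ∃ C : ℝ, 0 < C ∧ ∀ n : ℕ, 6 ≤ n → ∀ u : ℤ, |u| ≤ 5 * n →
    n * phi (20 * (u : ℝ) / n) + Lp n (Finset.range (20 * n - 20)) (20 * u) +
      Lp n (Finset.range (10 * n - 10)) (20 * u) ≤ 188 * n + 60 * n * Real.log n + C * Real.log n

/-- **the archimedean part** at perturbed zeta values, uniform in the numbers -/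
def St_arch : Prop := ∀ᶠ n : ℕ in atTop, ∀ (α β : ℕ → ℚ) (θ : ℝ),
    (∀ i ∈ ({3, 5, 7} : Finset ℕ), |(α i : ℝ) + θ * (β i : ℝ) - zr i| ≤ Real.exp (-(123 * n))) →
    DD n α β ≠ 0 →
    Real.log |((DD n α β : ℚ) : ℝ)| ≤ 600 * (n : ℝ) ^ 2 * Real.log n + 1014 * (n : ℝ) ^ 2 +
      10 * n * Real.log (1 + ∑ r ∈ Finset.Icc 1 8, |(β r : ℝ)|)

end

end Pool.Agent.TH609.PD7
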